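import Pool.Agent.V1157.WB.Gen

/-!
# The positive part of the effective cone of the blow-up of `n`-space in `n + 4` points

For every `n ≥ 6` and every choice of `n + 4` points of complex projective `n`-space the class
`14 H - 10 (E_1 + ... + E_9) - 9 E_10 - 14 (E_11 + ... + E_{n+4})` is effective, and its intersection
number with the anticanonical curve class `F = (n + 1) h - ∑ e_i` is `-1`.

For `n = 6` the hypersurface is given by an explicit determinant: with the Gale dual ten points of
the plane, three of them the coordinate points and the other seven points `q_i`, it is the locus of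
the `v` such that there is a pair of forms `(s, t)`, not both zero, of degrees `11` and `12` in
`x, y, w` and of degrees at most `8, 8, 7` in `x`, `y` and `w`, such that `s` vanishes to order `3`
at all `q_i` and `t + v_i s` to order `4` at `q_i`. For `n > 6` one takes cones.
-/

set_option autoImplicit false

namespace Pool.Agent.Results.MP_71de02_ag.PositivePart

open Pool.Agent.H689R3.Weyl Pool.Agent.V1157.WB

/-- **The effective cone has a positive part for all `n ≥ 6`.** -/
theorem result (n : ℕ) (hn : 6 ≤ n) :
    ∃ D : NInt (n + 4),
      D = (14, fun i => if i.1 < 9 then 10 else if i.1 = 9 then 9 else 14) ∧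
      ((n : ℤ) + 1) * D.1 < ∑ i, D.2 i ∧
      ∀ p : Fin (n + 4) → Fin (n + 1) → ℂ, IsEffective p D := by
  refine ⟨DD n, rfl, ?_, effAll_DD n hn⟩
  rw [sum_DD n hn]
  change ((n : ℤ) + 1) * 14 < _
  omega

end Pool.Agent.Results.MP_71de02_ag.PositivePart
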